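import Mathlib

set_option autoImplicit false

namespace Pool.Agent.Results.MP_f0f309_al.NoOrdering

open Matrix

/-- `B D` is skew-symmetric for a diagonal `D` with positive integer entries. -/
def SkewSymmetrizable {n : ℕ} (B : Matrix (Fin n) (Fin n) ℤ) : Prop :=
  ∃ d : Fin n → ℤ, (∀ i, 0 < d i) ∧ (B * diagonal d)ᵀ = -(B * diagonal d)

open Classical in
/-- The GIM determined by the ordering `lt`. -/
noncomputable def gim {n : ℕ} (B : Matrix (Fin n) (Fin n) ℤ) (lt : Fin n → Fin n → Prop)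
    (i j : Fin n) : ℤ :=
  if i = j then 2 else if lt i j then B i j else -B i j

/-- `c 0, …, c l, c 0` is a chordless cycle (indices are read cyclically in `Fin (l + 1)`). -/
def Chordless {n l : ℕ} (B : Matrix (Fin n) (Fin n) ℤ) (c : Fin (l + 1) → Fin n) : Prop :=
  (∀ j k, c j = c k → j = k) ∧ ∀ j k, j ≠ k → (B (c j) (c k) ≠ 0 ↔ (j = k + 1 ∨ k = j + 1))

/-- The entries along the cycle all have the same sign. -/
def Oriented {n l : ℕ} (B : Matrix (Fin n) (Fin n) ℤ) (c : Fin (l + 1) → Fin n) : Prop :=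
  (∀ j, 0 < B (c j) (c (j + 1))) ∨ ∀ j, B (c j) (c (j + 1)) < 0

/-- The number of indices `j` with `a_{c j, c (j+1)} > 0`. -/
noncomputable def posCount {n l : ℕ} (B : Matrix (Fin n) (Fin n) ℤ) (lt : Fin n → Fin n → Prop)
    (c : Fin (l + 1) → Fin n) : ℕ :=
  (Finset.univ.filter fun j : Fin (l + 1) => 0 < gim B lt (c j) (c (j + 1))).card

/-- The example. -/
def B0 : Matrix (Fin 10) (Fin 10) ℤ :=
  !![0, -1, 0, 0, 0, 1, 0, 0, 0, 0;
    1, 0, 0, 0, -1, 0, 0, 0, 1, -1;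
    0, 0, 0, -1, 0, 0, 0, 0, 1, 0;
    0, 0, 1, 0, 0, 1, -1, 0, 0, -1;
    0, 1, 0, 0, 0, -1, 0, 0, 0, 0;
    -1, 0, 0, -1, 1, 0, 0, 0, 0, 1;
    0, 0, 0, 1, 0, 0, 0, -1, 0, 0;
    0, 0, 0, 0, 0, 0, 1, 0, -1, 1;
    0, -1, -1, 0, 0, 0, 0, 1, 0, 0;
    0, 1, 0, 1, 0, -1, 0, -1, 0, 0]

theorem result : ∃ (n : ℕ) (B : Matrix (Fin n) (Fin n) ℤ), SkewSymmetrizable B ∧
    ∀ lt : Fin n → Fin n → Prop, IsStrictTotalOrder (Fin n) lt →
      ∃ (l : ℕ) (c : Fin (l + 1) → Fin n), 3 ≤ l + 1 ∧ Chordless B c ∧ Oriented B c ∧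
        Even (posCount B lt c) := by
  refine ⟨10, B0, ⟨fun _ => 1, fun _ => one_pos, ?_⟩, fun lt _ => ?_⟩
  · rw [diagonal_one, Matrix.mul_one]
    decide
  by_contra hc
  obtain ⟨x, hx⟩ : ∃ x : Fin 10 → Fin 10 → ℕ, ∀ i j, x i j = if 0 < gim B0 lt i j then 1 else 0 :=
    ⟨_, fun _ _ => rfl⟩
  have key : ∀ (l : ℕ) (c : Fin (l + 1) → Fin 10), 3 ≤ l + 1 → Chordless B0 c → Oriented B0 c →
      (∑ j, x (c j) (c (j + 1))) % 2 = 1 := by
    intro l c h1 h2 h3
    have h : ¬ Even (posCount B0 lt c) := fun h => hc ⟨l, c, h1, h2, h3, h⟩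
    rw [posCount, Finset.card_filter, Nat.not_even_iff] at h
    simpa only [hx] using h
  have h0 : (x 0 5 + x 5 4 + x 4 1 + x 1 0) % 2 = 1 := by
    have := key 3 ![0, 5, 4, 1] (by norm_num) (by unfold Chordless; decide) (Or.inl (by decide))
    simpa [Fin.sum_univ_succ, add_assoc] using this
  have h1 : (x 0 5 + x 5 9 + x 9 1 + x 1 0) % 2 = 1 := by
    have := key 3 ![0, 5, 9, 1] (by norm_num) (by unfold Chordless; decide) (Or.inl (by decide))
    simpa [Fin.sum_univ_succ, add_assoc] using this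
  have h2 : (x 1 8 + x 8 7 + x 7 6 + x 6 3 + x 3 5 + x 5 4 + x 4 1) % 2 = 1 := by
    have := key 6 ![1, 8, 7, 6, 3, 5, 4] (by norm_num) (by unfold Chordless; decide) (Or.inl (by decide))
    simpa [Fin.sum_univ_succ, add_assoc] using this
  have h3 : (x 1 8 + x 8 7 + x 7 9 + x 9 1) % 2 = 1 := by
    have := key 3 ![1, 8, 7, 9] (by norm_num) (by unfold Chordless; decide) (Or.inl (by decide))
    simpa [Fin.sum_univ_succ, add_assoc] using this
  have h4 : (x 2 8 + x 8 7 + x 7 6 + x 6 3 + x 3 2) % 2 = 1 := by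
    have := key 4 ![2, 8, 7, 6, 3] (by norm_num) (by unfold Chordless; decide) (Or.inl (by decide))
    simpa [Fin.sum_univ_succ, add_assoc] using this
  have h5 : (x 2 8 + x 8 7 + x 7 9 + x 9 3 + x 3 2) % 2 = 1 := by
    have := key 4 ![2, 8, 7, 9, 3] (by norm_num) (by unfold Chordless; decide) (Or.inl (by decide))
    simpa [Fin.sum_univ_succ, add_assoc] using this
  have h6 : (x 5 9 + x 9 3 + x 3 5) % 2 = 1 := by
    have := key 2 ![5, 9, 3] (by norm_num) (by unfold Chordless; decide) (Or.inl (by decide))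
    simpa [Fin.sum_univ_succ, add_assoc] using this
  omega

end Pool.Agent.Results.MP_f0f309_al.NoOrdering
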